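import Pool.Agent.H18.HIT.Targets

/-!
# Zariski dense orbits: row RGG
-/

open MvPolynomial
open Pool.Agent.H12.ZD (pmap v O Res DenseOrbit NoInv)
open Pool.Agent.H18.HIT

namespace Pool.Agent.H30.HIT

section

variable {N : ℕ} {k : Type} [Field k]

/-- the box of exponents -/
noncomputable def box (N M : ℕ) : Finset (Fin N →₀ ℕ) :=
  Finset.Iic (Finsupp.equivFunOnFinite.symm fun _ : Fin N => M)

theorem mem_box {M : ℕ} {m : Fin N →₀ ℕ} : m ∈ box N M ↔ ∀ i, m i ≤ M := by
  rw [box, Finset.mem_Iic, Finsupp.le_def]
  rfl

/-- representations -/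
def Rep (f : Tup N k) (d M t : ℕ) (q : Po N k) : Prop :=
  ∃ c : (Fin N →₀ ℕ) → Po N k, (∀ m, d * (c m).totalDegree ≤ t) ∧
      q = ∑ m ∈ box N M, monomial m 1 * aeval f (c m)

theorem Rep.mono {f : Tup N k} {d M t t' : ℕ} {q : Po N k} (h : Rep f d M t q) (ht : t ≤ t') :
    Rep f d M t' q := by
  obtain ⟨c, hc, hq⟩ := h
  exact ⟨c, fun m => (hc m).trans ht, hq⟩

theorem Rep.zero (f : Tup N k) (d M t : ℕ) : Rep f d M t (0 : Po N k) :=
  ⟨fun _ => 0, fun m => by simp, by simp⟩

theorem Rep.add {f : Tup N k} {d M t : ℕ} {q r : Po N k} (h : Rep f d M t q)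
    (h' : Rep f d M t r) : Rep f d M t (q + r) := by
  obtain ⟨c, hc, hq⟩ := h
  obtain ⟨c', hc', hq'⟩ := h'
  refine ⟨fun m => c m + c' m, fun m => ?_, ?_⟩
  · refine (Nat.mul_le_mul_left d (totalDegree_add (c m) (c' m))).trans ?_
    rcases le_total (c m).totalDegree (c' m).totalDegree with h | h
    · rw [max_eq_right h]
      exact hc' m
    · rw [max_eq_left h]
      exact hc m
  · rw [hq, hq', ← Finset.sum_add_distrib]
    refine Finset.sum_congr rfl fun m _ => ?_
    rw [map_add, mul_add]

theorem Rep.smul {f : Tup N k} {d M t : ℕ} {q : Po N k} (h : Rep f d M t q) (a : k) :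
    Rep f d M t (C a * q) := by
  obtain ⟨c, hc, hq⟩ := h
  refine ⟨fun m => C a * c m, fun m => ?_, ?_⟩
  · refine le_trans (Nat.mul_le_mul_left d ?_) (hc m)
    refine (totalDegree_mul _ _).trans ?_
    rw [totalDegree_C, zero_add]
  · rw [hq, Finset.mul_sum]
    refine Finset.sum_congr rfl fun m _ => ?_
    rw [map_mul, algHom_C, algebraMap_eq]
    ring

theorem Rep.neg {f : Tup N k} {d M t : ℕ} {q : Po N k} (h : Rep f d M t q) :
    Rep f d M t (-q) := by
  have h1 := h.smul (-1)
  rw [C_neg, C_1, neg_one_mul] at h1
  exact h1

theorem Rep.sum {f : Tup N k} {d M t : ℕ} {ι : Type} (s : Finset ι) (q : ι → Po N k)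
    (h : ∀ i ∈ s, Rep f d M t (q i)) : Rep f d M t (∑ i ∈ s, q i) := by
  classical
  induction s using Finset.induction_on with
  | empty => simpa using Rep.zero f d M t
  | insert a s ha ih =>
    rw [Finset.sum_insert ha]
    exact (h a (Finset.mem_insert_self a s)).add
      (ih fun i hi => h i (Finset.mem_insert_of_mem hi))

theorem Rep.mulf {f : Tup N k} {d M t : ℕ} {q : Po N k} (h : Rep f d M t q) (i : Fin N) :
    Rep f d M (t + d) (q * f i) := by
  obtain ⟨c, hc, hq⟩ := h
  refine ⟨fun m => c m * X i, fun m => ?_, ?_⟩
  · calc d * (c m * X i).totalDegree ≤ d * ((c m).totalDegree + 1) := by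
          refine Nat.mul_le_mul_left d ((totalDegree_mul _ _).trans ?_)
          rw [totalDegree_X]
      _ = d * (c m).totalDegree + d := by ring
      _ ≤ t + d := Nat.add_le_add_right (hc m) d
  · rw [hq, Finset.sum_mul]
    refine Finset.sum_congr rfl fun m _ => ?_
    rw [map_mul, aeval_X, mul_assoc]

theorem Rep.mono_box (f : Tup N k) (d M t : ℕ) {m : Fin N →₀ ℕ} (hm : ∀ i, m i ≤ M) (a : k) :
    Rep f d M t (monomial m a) := by
  classical
  refine ⟨fun m' => if m' = m then C a else 0, fun m' => ?_, ?_⟩
  · by_cases h : m' = m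
    · simp only [if_pos h]
      rw [totalDegree_C, mul_zero]
      exact Nat.zero_le _
    · simp only [if_neg h]
      rw [totalDegree_zero, mul_zero]
      exact Nat.zero_le _
  · rw [Finset.sum_eq_single m]
    · simp only [if_true]
      rw [algHom_C, algebraMap_eq, mul_comm, C_mul_monomial, mul_one]
    · intro b _ hb
      simp only [if_neg hb]
      rw [map_zero, mul_zero]
    · intro h
      exact absurd (mem_box.2 hm) h

/-- homogeneous elements of an ideal generated by forms of the degree `d` -/
theorem hom_rep {d : ℕ} {F : Tup N k} (hF : ∀ i, (F i).IsHomogeneous d) {p : Po N k} {s : ℕ}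
    (hp : p.IsHomogeneous s) (hI : p ∈ Ideal.span (Set.range F)) :
    p = 0 ∨ (d ≤ s ∧ ∃ g : Tup N k, (∀ i, (g i).totalDegree ≤ s - d) ∧ p = ∑ i, g i * F i) := by
  obtain ⟨g, hg⟩ := Ideal.mem_span_range_iff_exists_fun.1 hI
  have key : ∀ i, homogeneousComponent s (g i * F i) =
      if d ≤ s then homogeneousComponent (s - d) (g i) * F i else 0 := by
    intro i
    have e1 : g i * F i = ∑ e ∈ Finset.range ((g i).totalDegree + 1),
        homogeneousComponent e (g i) * F i := by
      rw [← Finset.sum_mul, sum_homogeneousComponent]
    have e2 : ∀ e, homogeneousComponent s (homogeneousComponent e (g i) * F i) =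
        if s = e + d then homogeneousComponent e (g i) * F i else 0 := fun e =>
      homogeneousComponent_of_mem ((homogeneousComponent_isHomogeneous e (g i)).mul (hF i))
    rw [e1, map_sum]
    simp only [e2]
    split_ifs with hds
    · by_cases hle : s - d ≤ (g i).totalDegree
      · rw [Finset.sum_eq_single (s - d)]
        · rw [if_pos (by omega)]
        · intro b _ hb
          rw [if_neg (by omega)]
        · intro hnot
          exact absurd (Finset.mem_range.2 (by omega)) hnot
      · rw [homogeneousComponent_eq_zero _ _ (by omega), zero_mul]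
        refine Finset.sum_eq_zero fun e he => ?_
        have := Finset.mem_range.1 he
        rw [if_neg (by omega)]
    · refine Finset.sum_eq_zero fun e _ => ?_
      rw [if_neg (by omega)]
  have hps : p = ∑ i, homogeneousComponent s (g i * F i) := by
    rw [← map_sum, hg, homogeneousComponent_eq_self hp]
  by_cases hds : d ≤ s
  · right
    refine ⟨hds, fun i => homogeneousComponent (s - d) (g i), fun i => ?_, ?_⟩
    · exact (homogeneousComponent_isHomogeneous _ _).totalDegree_le
    · rw [hps]
      refine Finset.sum_congr rfl fun i _ => ?_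
      rw [key, if_pos hds]
  · left
    rw [hps]
    refine Finset.sum_eq_zero fun i _ => ?_
    rw [key, if_neg hds]

/-- the lower part of a polynomial -/
theorem low_deg {d : ℕ} (hd : 1 ≤ d) {q : Po N k} (hq : q.totalDegree ≤ d) :
    (q - homogeneousComponent d q).totalDegree ≤ d - 1 := by
  rw [totalDegree, Finset.sup_le_iff]
  intro m hm
  have h1 : coeff m (q - homogeneousComponent d q) ≠ 0 := mem_support_iff.1 hm
  rw [coeff_sub, coeff_homogeneousComponent] at h1
  by_cases h2 : m.degree = d
  · rw [if_pos h2, sub_self] at h1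
    exact absurd rfl h1
  · rw [if_neg h2, sub_zero] at h1
    have h3 : (m.sum fun _ e => e) ≤ q.totalDegree := le_totalDegree (mem_support_iff.2 h1)
    have h4 : (m.sum fun _ e => e) = m.degree := rfl
    have h5 : m.degree ≤ d := by
      rw [← h4]
      exact h3.trans hq
    rw [h4]
    omega

/-- large powers of the variables -/
theorem exists_pow [IsAlgClosed k] {F : Tup N k} (hF : ∀ x : Fin N → k, (∀ i, eval x (F i) = 0) → x = 0) :
    ∃ K : ℕ, ∀ j, (X j : Po N k) ^ K ∈ Ideal.span (Set.range F) := by
  classical
  have h1 : ∀ j, (X j : Po N k) ∈ (Ideal.span (Set.range F)).radical := by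
    intro j
    rw [← vanishingIdeal_zeroLocus_eq_radical (K := k), mem_vanishingIdeal_iff]
    intro x hx
    have h2 : x = 0 := by
      apply hF
      intro i
      exact hx _ (Ideal.subset_span ⟨i, rfl⟩)
    rw [aeval_X, h2]
    rfl
  choose n hn using h1
  refine ⟨∑ j, n j, fun j => ?_⟩
  have h3 : n j ≤ ∑ j, n j := Finset.single_le_sum (fun _ _ => Nat.zero_le _) (Finset.mem_univ j)
  obtain ⟨c, hc⟩ := Nat.exists_eq_add_of_le h3
  rw [hc, pow_add]
  exact Ideal.mul_mem_right _ _ (hn j)

end

theorem pf_RGG : T_RGG := by
  classical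
  intro N k _ _ f d hd hdeg hz
  obtain ⟨K, hK⟩ := exists_pow hz
  refine ⟨K, ?_⟩
  have hF : ∀ i, (homogeneousComponent d (f i)).IsHomogeneous d := fun i =>
    homogeneousComponent_isHomogeneous d (f i)
  -- main claim
  have main : ∀ (t : ℕ) (q : Po N k), q.totalDegree ≤ t → Rep f d K t q := by
    intro t
    induction t using Nat.strong_induction_on with
    | _ t ih =>
      intro q hq
      have mon : ∀ m : Fin N →₀ ℕ, m.degree ≤ t → Rep f d K t (monomial m (1 : k)) := by
        intro m hm
        by_cases hbox : ∀ i, m i ≤ K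
        · exact Rep.mono_box f d K t hbox 1
        · push Not at hbox
          obtain ⟨j, hj⟩ := hbox
          have hmem : (monomial m (1 : k)) ∈
              Ideal.span (Set.range fun i => homogeneousComponent d (f i)) := by
            have e1 : m = Finsupp.single j K + (m - Finsupp.single j K) := by
              rw [add_tsub_cancel_of_le]
              rw [Finsupp.single_le_iff]
              exact hj.le
            have e2 : (monomial m (1 : k)) = X j ^ K * monomial (m - Finsupp.single j K) 1 := by
              rw [X_pow_eq_monomial, monomial_mul, ← e1, one_mul]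
            rw [e2]
            exact Ideal.mul_mem_right _ _ (hK j)
          rcases hom_rep hF (isHomogeneous_monomial (1 : k) (rfl : m.degree = m.degree)) hmem with
            h0 | ⟨hds, g, hg, he⟩
          · rw [h0]
            exact Rep.zero f d K t
          · have e3 : (monomial m (1 : k)) = ∑ i, (g i * f i +
                -(g i * (f i - homogeneousComponent d (f i)))) := by
              rw [he]
              refine Finset.sum_congr rfl fun i _ => ?_
              ring
            rw [e3]
            refine Rep.sum _ _ fun i _ => ?_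
            refine Rep.add ?_ (Rep.neg ?_)
            · have h1 : Rep f d K (m.degree - d) (g i) := ih _ (by omega) _ (hg i)
              have h2 := h1.mulf i
              exact h2.mono (by omega)
            · have h1 : (g i * (f i - homogeneousComponent d (f i))).totalDegree ≤
                  m.degree - 1 := by
                refine (totalDegree_mul _ _).trans ?_
                have h2 := low_deg hd (hdeg i)
                have h3 := hg i
                omega
              have h2 : Rep f d K (m.degree - 1) _ := ih _ (by omega) _ h1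
              exact h2.mono (by omega)
      have e4 : q = ∑ m ∈ q.support, C (coeff m q) * monomial m (1 : k) := by
        conv_lhs => rw [as_sum q]
        refine Finset.sum_congr rfl fun m _ => ?_
        rw [C_mul_monomial, mul_one]
      rw [e4]
      refine Rep.sum _ _ fun m hm => (mon m ?_).smul _
      exact (le_totalDegree hm).trans hq
  intro t q hq
  exact main t q hq

end Pool.Agent.H30.HIT
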