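import Pool.Agent.H18.HIT.Targets

/-!
# Zariski dense orbits: row RIN
-/

open MvPolynomial
open Pool.Agent.H12.ZD (pmap v O Res DenseOrbit NoInv)
open Pool.Agent.H18.HIT

namespace Pool.Agent.H30.HIT

theorem fin_bound {k P ι : Type} [Field k] [CommRing P] [Algebra k P] [Fintype ι]
    (V W : Submodule k P) [Module.Finite k W] (e : ι → P)
    (h : ∀ q ∈ V, ∃ c : ι → P, (∀ i, c i ∈ W) ∧ q = ∑ i, e i * c i) :
    Module.finrank k V ≤ Fintype.card ι * Module.finrank k W := by
  classical
  let Λ : (ι → W) →ₗ[k] P := ∑ i, (LinearMap.mulLeft k (e i)) ∘ₗ W.subtype ∘ₗ LinearMap.proj i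
  have hV : V ≤ LinearMap.range Λ := by
    intro q hq
    obtain ⟨c, hc, rfl⟩ := h q hq
    refine ⟨fun i => ⟨c i, hc i⟩, ?_⟩
    simp [Λ, LinearMap.sum_apply]
  calc Module.finrank k V ≤ Module.finrank k (LinearMap.range Λ) := Submodule.finrank_mono hV
    _ ≤ Module.finrank k (ι → W) := LinearMap.finrank_range_le Λ
    _ = Fintype.card ι * Module.finrank k W := by
      rw [Module.finrank_pi_fintype]
      simp

theorem low_bound (s N : ℕ) : (s + 1) ^ N ≤ N.factorial * (s + N).choose N := by
  rw [← Nat.ascFactorial_eq_factorial_mul_choose]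
  exact Nat.pow_succ_le_ascFactorial (s + 1) N

theorem pf_RIN (hRGG : T_RGG) (hRTD : T_RTD) (hHF1 : T_HF1) : T_RIN := by
  classical
  intro N k _ _ f d hd hdeg hz
  rcases Nat.eq_zero_or_pos N with h0 | hN
  · subst h0
    have e1 : (aeval f : Po 0 k →ₐ[k] Po 0 k) = AlgHom.id k (Po 0 k) := by
      apply algHom_ext
      intro i
      exact i.elim0
    rw [e1]
    exact Function.injective_id
  · by_contra hinj
    rw [injective_iff_map_eq_zero] at hinj
    push Not at hinj
    obtain ⟨h, hh0, hh⟩ := hinj
    obtain ⟨M, hM⟩ := hRGG N k f d hd hdeg hz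
    obtain ⟨B, hB⟩ := hHF1 N k (RingHom.ker (aeval f : Po N k →ₐ[k] Po N k)) h
      ((RingHom.mem_ker).2 hh0) hh
    set bx : Finset (Fin N →₀ ℕ) :=
      Finset.Iic (Finsupp.equivFunOnFinite.symm fun _ : Fin N => M) with hbx
    have key : ∀ s, (s + N).choose N ≤ bx.card * (B * (s + 1) ^ (N - 1)) := by
      intro s
      obtain ⟨hfin, hrank⟩ := hRTD N k s
      set W : Submodule k (Po N k) := (restrictTotalDegree (Fin N) k s).map
        (aeval f : Po N k →ₐ[k] Po N k).toLinearMap with hW
      have : Module.Finite k W := Module.Finite.map _ _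
      have h1 : Module.finrank k W ≤
          Hf (RingHom.ker (aeval f : Po N k →ₐ[k] Po N k)) s := by
        have e1 : W = (Submodule.map (Ideal.Quotient.mkₐ k
            (RingHom.ker (aeval f : Po N k →ₐ[k] Po N k))).toLinearMap
            (restrictTotalDegree (Fin N) k s)).map
              (Ideal.kerLiftAlg (aeval f : Po N k →ₐ[k] Po N k)).toLinearMap := by
          rw [← Submodule.map_comp]
          rfl
        rw [e1]
        have : Module.Finite k (Submodule.map (Ideal.Quotient.mkₐ k
            (RingHom.ker (aeval f : Po N k →ₐ[k] Po N k))).toLinearMap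
            (restrictTotalDegree (Fin N) k s)) := Module.Finite.map _ _
        exact Submodule.finrank_map_le _ _
      have h2 : Module.finrank k (restrictTotalDegree (Fin N) k s) ≤
          Fintype.card bx * Module.finrank k W := by
        apply fin_bound _ _ (fun m : bx => (monomial (m : Fin N →₀ ℕ) (1 : k)))
        intro q hq
        obtain ⟨c, hc, hqe⟩ := hM s q ((mem_restrictTotalDegree _ _ _).1 hq)
        refine ⟨fun m => aeval f (c m), fun m => ?_, ?_⟩
        · refine Submodule.mem_map_of_mem ((mem_restrictTotalDegree _ _ _).2 ?_)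
          exact (Nat.le_mul_of_pos_left _ hd).trans (hc m)
        · rw [hqe]
          exact (Finset.sum_coe_sort bx (fun m => monomial m 1 * aeval f (c m))).symm
      rw [hrank, Fintype.card_coe] at h2
      exact h2.trans (Nat.mul_le_mul_left _ (h1.trans (hB s)))
    have fin : ∀ s : ℕ, s + 1 ≤ N.factorial * (bx.card * B) := by
      intro s
      have h1 := low_bound s N
      have h2 := key s
      have h3 : (s + 1) ^ (N - 1) * (s + 1) ≤
          (s + 1) ^ (N - 1) * (N.factorial * (bx.card * B)) := by
        calc (s + 1) ^ (N - 1) * (s + 1) = (s + 1) ^ N := by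
              rw [← pow_succ, Nat.sub_add_cancel hN]
          _ ≤ N.factorial * (s + N).choose N := h1
          _ ≤ N.factorial * (bx.card * (B * (s + 1) ^ (N - 1))) := Nat.mul_le_mul_left _ h2
          _ = (s + 1) ^ (N - 1) * (N.factorial * (bx.card * B)) := by ring
      exact Nat.le_of_mul_le_mul_left h3 (pow_pos (Nat.succ_pos s) _)
    exact absurd (fin (N.factorial * (bx.card * B))) (by omega)

end Pool.Agent.H30.HIT
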