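import Pool.Agent.H30.HIT.RIN

/-!
# Zariski dense orbits: row REG
-/

open MvPolynomial
open Pool.Agent.H12.ZD (pmap v O Res DenseOrbit NoInv)
open Pool.Agent.H18.HIT

namespace Pool.Agent.H30.HIT

/-- numerical comparison -/
theorem num_bound {d N E a : ℕ} (h : ∀ u : ℕ, (d * u) ^ N ≤ E * (u + a) ^ N) : d ^ N ≤ E := by
  have h1 : Filter.Tendsto (fun u : ℕ => (E : ℝ) * (1 + (a : ℝ) / u) ^ N) Filter.atTop
      (nhds ((E : ℝ) * (1 + 0) ^ N)) :=
    (((tendsto_const_div_atTop_nhds_zero_nat (a : ℝ)).const_add 1).pow N).const_mul _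
  have h2 : ∀ᶠ u : ℕ in Filter.atTop, ((d ^ N : ℕ) : ℝ) ≤ (E : ℝ) * (1 + (a : ℝ) / u) ^ N := by
    filter_upwards [Filter.eventually_ge_atTop 1] with u hu
    have hu' : (0 : ℝ) < u := by exact_mod_cast hu
    have h3 : ((d : ℝ) * u) ^ N ≤ E * ((u : ℝ) + a) ^ N := by exact_mod_cast h u
    have h4 : (1 + (a : ℝ) / u) = ((u : ℝ) + a) / u := by
      field_simp
    rw [h4, div_pow, ← mul_div_assoc, le_div_iff₀ (pow_pos hu' N)]
    rw [mul_pow] at h3
    push_cast
    exact h3
  have h5 := ge_of_tendsto h1 h2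
  rw [add_zero, one_pow, mul_one] at h5
  exact_mod_cast h5

section

variable {N : ℕ} {k : Type} [Field k]

/-- reduction modulo the minimal polynomial -/
theorem ev2_red {G : Tup N k} {θ : Po N k} {Φ : Polynomial (Po N k)} {Δ : Po N k}
    {R : Fin N → Polynomial (Po N k)} (h : Prim G θ Φ Δ R) (Ψ : Polynomial (Po N k)) :
    ∃ r : Fin Φ.natDegree → Po N k, ev2 G θ Ψ = ∑ i : Fin Φ.natDegree, θ ^ (i : ℕ) * aeval G (r i) := by
  refine ⟨fun i => (Ψ %ₘ Φ).coeff i, ?_⟩
  have h1 : ev2 G θ Ψ = ev2 G θ (Ψ %ₘ Φ) := by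
    conv_lhs => rw [← Polynomial.modByMonic_add_div Ψ Φ]
    rw [ev2_add, ev2_mul, h.root, zero_mul, add_zero]
  have h2 : (Ψ %ₘ Φ).natDegree < Φ.natDegree :=
    Polynomial.natDegree_modByMonic_lt Ψ h.monic (fun h3 => h.irr.not_isUnit (h3 ▸ isUnit_one))
  rw [h1, ev2, Polynomial.eval₂_eq_sum_range' _ h2, Finset.sum_range]
  refine Finset.sum_congr rfl fun i _ => ?_
  rw [mul_comm]
  rfl

theorem ev2_prod (G : Tup N k) (θ : Po N k) (R : Fin N → Polynomial (Po N k))
    (m : Fin N → ℕ) : ev2 G θ (∏ i, R i ^ m i) = ∏ i, ev2 G θ (R i) ^ m i := by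
  unfold ev2
  have h : ∀ Ψ : Polynomial (Po N k), Ψ.eval₂ (aeval G : Po N k →ₐ[k] Po N k).toRingHom θ =
      Polynomial.eval₂RingHom (aeval G : Po N k →ₐ[k] Po N k).toRingHom θ Ψ := fun _ => rfl
  simp only [h, map_prod, map_pow]

theorem mono_red {G : Tup N k} {θ : Po N k} {Φ : Polynomial (Po N k)} {Δ : Po N k}
    {R : Fin N → Polynomial (Po N k)} (h : Prim G θ Φ Δ R) (m : Fin N →₀ ℕ) :
    ∃ r : Fin Φ.natDegree → Po N k, aeval G (Δ ^ (∑ i, m i)) * monomial m 1 =
      ∑ i : Fin Φ.natDegree, θ ^ (i : ℕ) * aeval G (r i) := by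
  obtain ⟨r, hr⟩ := ev2_red h (∏ i, R i ^ m i)
  refine ⟨r, ?_⟩
  rw [← hr, ev2_prod]
  simp only [← h.coord, mul_pow]
  rw [Finset.prod_mul_distrib, Finset.prod_pow_eq_pow_sum, map_pow]
  congr 1
  rw [monomial_eq, C_1, one_mul, Finsupp.prod_fintype]
  intro i
  rw [pow_zero]

end

theorem Cov.mono {N : ℕ} {k : Type} [CommRing k] {f : Tup N k} {e e' : ℕ} (h : Cov f e)
    (he : e' ≤ e) : Cov f e' := by
  obtain ⟨c, hc, h⟩ := h
  refine ⟨c, hc, fun y hy => ?_⟩
  obtain ⟨S, hS, hS'⟩ := h y hy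
  obtain ⟨T, hT, hT'⟩ := Finset.exists_subset_card_eq (hS ▸ he)
  exact ⟨T, hT', fun x hx => hS' x (hT hx)⟩

theorem pf_REG (hRGG : T_RGG) (hRIN : T_RIN) (hPEL : T_PEL) (hCVE : T_CVE) (hRTD : T_RTD) :
    T_REG := by
  classical
  intro N k _ _ _ f d hd hdeg hz
  have hinj := hRIN N k f d hd hdeg hz
  obtain ⟨θ, Φ, Δ, R, hP⟩ := hPEL N k f hinj
  refine Cov.mono (hCVE N k f θ Φ Δ R hinj hP) ?_
  obtain ⟨M, hM⟩ := hRGG N k f d hd hdeg hz
  set bx : Finset (Fin N →₀ ℕ) :=
    Finset.Iic (Finsupp.equivFunOnFinite.symm fun _ : Fin N => M) with hbx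
  have hbox : ∀ m ∈ bx, ∑ i, m i ≤ N * M := by
    intro m hm
    have h1 : ∀ i, m i ≤ M := by
      intro i
      have h2 := (Finsupp.le_def.1 (Finset.mem_Iic.1 hm)) i
      exact h2
    calc ∑ i, m i ≤ ∑ _i : Fin N, M := Finset.sum_le_sum fun i _ => h1 i
      _ = N * M := by simp
  choose r hr using fun m : Fin N →₀ ℕ => mono_red hP m
  set r' : (Fin N →₀ ℕ) → Fin Φ.natDegree → Po N k :=
    fun m i => Δ ^ (N * M - ∑ i, m i) * r m i with hr'
  set s : Po N k := aeval f (Δ ^ (N * M)) with hs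
  have hs0 : s ≠ 0 := by
    intro h0
    have h1 : Δ ^ (N * M) = 0 := by
      apply hinj
      rw [← hs, h0, map_zero]
    exact pow_ne_zero _ hP.ne h1
  have hsm : ∀ m ∈ bx, s * monomial m 1 = ∑ i : Fin Φ.natDegree, θ ^ (i : ℕ) * aeval f (r' m i) := by
    intro m hm
    have e1 : s = aeval f (Δ ^ (N * M - ∑ i, m i)) * aeval f (Δ ^ (∑ i, m i)) := by
      rw [hs, ← map_mul, ← pow_add, Nat.sub_add_cancel (hbox m hm)]
    rw [e1, mul_assoc, hr m, Finset.mul_sum]
    refine Finset.sum_congr rfl fun i _ => ?_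
    rw [hr']
    simp only [map_mul]
    ring
  set s1 : ℕ := bx.sup fun m => Finset.univ.sup fun i => (r' m i).totalDegree with hs1
  have hs1' : ∀ m ∈ bx, ∀ i, (r' m i).totalDegree ≤ s1 := by
    intro m hm i
    exact (Finset.le_sup (f := fun i => (r' m i).totalDegree) (Finset.mem_univ i)).trans
      (Finset.le_sup (f := fun m => Finset.univ.sup fun i => (r' m i).totalDegree) hm)
  have key : ∀ u : ℕ, (d * u + N).choose N ≤ Φ.natDegree * (u + s1 + N).choose N := by
    intro u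
    obtain ⟨hfin, hrank⟩ := hRTD N k (d * u)
    obtain ⟨hfin', hrank'⟩ := hRTD N k (u + s1)
    set W : Submodule k (Po N k) := (restrictTotalDegree (Fin N) k (u + s1)).map
      (aeval f : Po N k →ₐ[k] Po N k).toLinearMap with hW
    have i1 : Module.Finite k W := Module.Finite.map _ _
    have h1 : Module.finrank k W ≤ (u + s1 + N).choose N := by
      rw [← hrank']
      exact Submodule.finrank_map_le _ _
    have hmul : Function.Injective (LinearMap.mulLeft k s) := by
      intro a b hab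
      exact mul_left_cancel₀ hs0 hab
    have h2 : Module.finrank k ((restrictTotalDegree (Fin N) k (d * u)).map
        (LinearMap.mulLeft k s)) = (d * u + N).choose N := by
      rw [← hrank]
      exact (Submodule.equivMapOfInjective _ hmul _).finrank_eq.symm
    have h3 : Module.finrank k ((restrictTotalDegree (Fin N) k (d * u)).map
        (LinearMap.mulLeft k s)) ≤ Fintype.card (Fin Φ.natDegree) * Module.finrank k W := by
      apply fin_bound _ _ (fun i : Fin Φ.natDegree => θ ^ (i : ℕ))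
      rintro _ ⟨q, hq, rfl⟩
      obtain ⟨c, hc, hqe⟩ := hM (d * u) q ((mem_restrictTotalDegree _ _ _).1 hq)
      refine ⟨fun i => aeval f (∑ m ∈ bx, r' m i * c m), fun i => ?_, ?_⟩
      · refine Submodule.mem_map_of_mem ((mem_restrictTotalDegree _ _ _).2 ?_)
        refine totalDegree_finsetSum_le fun m hm => ?_
        refine (totalDegree_mul _ _).trans ?_
        have h4 := hs1' m hm i
        have h5 : (c m).totalDegree ≤ u := Nat.le_of_mul_le_mul_left (hc m) hd
        omega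
      · rw [LinearMap.mulLeft_apply]
        simp only [map_sum, map_mul, Finset.mul_sum]
        rw [Finset.sum_comm]
        conv_lhs => rw [hqe]
        rw [Finset.mul_sum]
        refine Finset.sum_congr rfl fun m hm => ?_
        rw [← mul_assoc, hsm m hm, Finset.sum_mul]
        refine Finset.sum_congr rfl fun i _ => ?_
        ring
    rw [h2, Fintype.card_fin] at h3
    exact h3.trans (Nat.mul_le_mul_left _ h1)
  apply num_bound (a := s1 + N)
  intro u
  have h1 : (d * u + 1) ^ N ≤ N.factorial * (d * u + N).choose N := low_bound (d * u) N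
  have h2 : N.factorial * (u + s1 + N).choose N ≤ (u + s1 + N) ^ N := by
    rw [← Nat.ascFactorial_eq_factorial_mul_choose]
    exact Nat.ascFactorial_le_pow_add _ _
  calc (d * u) ^ N ≤ (d * u + 1) ^ N := Nat.pow_le_pow_left (Nat.le_succ _) N
    _ ≤ N.factorial * (d * u + N).choose N := h1
    _ ≤ N.factorial * (Φ.natDegree * (u + s1 + N).choose N) := Nat.mul_le_mul_left _ (key u)
    _ = Φ.natDegree * (N.factorial * (u + s1 + N).choose N) := by ring
    _ ≤ Φ.natDegree * (u + s1 + N) ^ N := Nat.mul_le_mul_left _ h2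
    _ = Φ.natDegree * (u + (s1 + N)) ^ N := by rw [add_assoc]

end Pool.Agent.H30.HIT
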